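import Pool.Agent.W313.HB.Stm3

/-!
# HB-GSP: good scales for pairs
-/
set_option autoImplicit false
set_option linter.all false

namespace Pool.Agent.W782.HB

open Finset
open Pool.Agent.W313.HB

theorem gsp_ (h : S_GS) : S_GSP := by
  classical
  intro ε c hε hc
  obtain ⟨J1, R1, hR1, H1⟩ := h (ε / 2) c (by positivity) hc
  obtain ⟨J2, R2, hR2, H2⟩ := h (ε / (2 * (J1 + 1))) c (by positivity) hc
  refine ⟨J1 * J2, max R1 R2, le_max_of_le_left hR1, ?_⟩
  intro g hg0 hg A hA
  set R : ℝ := max R1 R2 with hR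
  have hRR1 : R1 ≤ R := le_max_left _ _
  have hRR2 : R2 ≤ R := le_max_right _ _
  have hR0 : 1 ≤ R := hR1.trans hRR1
  have hgR : ∀ j, R ≤ g j := by
    intro j
    induction j with
    | zero => exact hg0
    | succ j ih =>
      have h1 := hg j
      nlinarith
  have hgs : ∀ j, g j ≤ g (j + 1) := by
    intro j
    have h1 := hg j
    have h2 := hgR j
    nlinarith
  have hgm : Monotone g := monotone_nat_of_le_succ hgs
  have hstep : ∀ i j, i < j → R * g i ≤ g j := fun i j hij => (hg i).trans (hgm hij)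
  -- the bad sets of the second variable
  have hB : ∀ k < J1, (((Icc 1 A).filter (fun a : ℕ => Squarefree a ∧
      ∀ i < J2, Real.exp (g (k * J2 + i)) <
        (sm ⌊Real.exp (c * g (k * J2 + i))⌋₊ a : ℝ))).card : ℝ) ≤ ε / (2 * (J1 + 1)) * A := by
    intro k hk
    have h3 := H2 (fun i => g (k * J2 + i)) (hRR2.trans (hgR _)) (fun i => by
      have h4 := hg (k * J2 + i)
      have h5 := hgR (k * J2 + i)
      have h6 : R2 * g (k * J2 + i) ≤ R * g (k * J2 + i) :=
        mul_le_mul_of_nonneg_right hRR2 (by linarith)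
      exact h6.trans h4) A (by
      have h7 : k * J2 + J2 ≤ J1 * J2 := by
        have : (k + 1) * J2 ≤ J1 * J2 := Nat.mul_le_mul_right _ hk
        linarith
      have h8 := hgm h7
      have h9 := hgR (k * J2 + J2)
      calc R2 * g (k * J2 + J2) ≤ R * g (k * J2 + J2) :=
            mul_le_mul_of_nonneg_right hRR2 (by linarith)
        _ ≤ R * g (J1 * J2) := mul_le_mul_of_nonneg_left h8 (by linarith)
        _ ≤ _ := hA)
    convert h3 using 4
  -- the fibre over a good second variable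
  have hF : ∀ b : ℕ, (∀ k < J1, ∃ i < J2, (sm ⌊Real.exp (c * g (k * J2 + i))⌋₊ b : ℝ) ≤
      Real.exp (g (k * J2 + i))) →
      (((Icc 1 A).filter (fun a : ℕ => Squarefree a ∧ Squarefree b ∧
        ∀ j < J1 * J2, ¬ ((sm ⌊Real.exp (c * g j)⌋₊ a : ℝ) ≤ Real.exp (g j) ∧
        (sm ⌊Real.exp (c * g j)⌋₊ b : ℝ) ≤ Real.exp (g j)))).card : ℝ) ≤ ε / 2 * A := by
    intro b hb
    choose! i hi hib using hb
    set idx : ℕ → ℕ := fun k => if k < J1 then k * J2 + i k else J1 * J2 + (k - J1) with hidx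
    have hidxlt : ∀ k < J1, idx k < (k + 1) * J2 := by
      intro k hk
      have h1 := hi k hk
      simp only [hidx, if_pos hk]
      linarith
    have hmono : ∀ k, idx k < idx (k + 1) := by
      intro k
      by_cases hk1 : k + 1 < J1
      · have hk : k < J1 := by omega
        have h1 := hidxlt k hk
        have h2 : idx (k + 1) = (k + 1) * J2 + i (k + 1) := by simp only [hidx, if_pos hk1]
        omega
      · by_cases hk : k < J1
        · have h1 := hidxlt k hk
          have h3 : k + 1 = J1 := by omega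
          have h2 : idx (k + 1) = J1 * J2 + (k + 1 - J1) := by simp only [hidx, if_neg hk1]
          rw [h3] at h1
          omega
        · have h2 : idx (k + 1) = J1 * J2 + (k + 1 - J1) := by simp only [hidx, if_neg hk1]
          have h4 : idx k = J1 * J2 + (k - J1) := by simp only [hidx, if_neg hk]
          omega
    have h3 := H1 (fun k => g (idx k)) (hRR1.trans (hgR _)) (fun k => by
      have h4 := hstep _ _ (hmono k)
      have h5 := hgR (idx k)
      exact (mul_le_mul_of_nonneg_right hRR1 (by linarith)).trans h4) A (by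
      have h6 : idx J1 = J1 * J2 := by simp [hidx]
      show R1 * g (idx J1) ≤ Real.log A
      rw [h6]
      have h5 := hgR (J1 * J2)
      exact (mul_le_mul_of_nonneg_right hRR1 (by linarith)).trans hA)
    refine le_trans ?_ h3
    norm_cast
    refine Finset.card_le_card ?_
    intro a ha
    rw [Finset.mem_filter] at ha ⊢
    refine ⟨ha.1, ha.2.1, ?_⟩
    intro k hk
    have h7 : idx k = k * J2 + i k := by simp only [hidx, if_pos hk]
    have h8 : idx k < J1 * J2 := by
      have h9 := hidxlt k hk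
      have h10 : (k + 1) * J2 ≤ J1 * J2 := Nat.mul_le_mul_right _ hk
      omega
    have h9 := ha.2.2.2 (idx k) h8
    have h10 := hib k hk
    rw [← h7] at h10
    by_contra h11
    exact h9 ⟨not_lt.1 h11, h10⟩
  -- the count
  have e1 : (((((Icc 1 A) ×ˢ (Icc 1 A)).filter (fun x : ℕ × ℕ => Squarefree x.1 ∧ Squarefree x.2 ∧
      ∀ j < J1 * J2, ¬ ((sm ⌊Real.exp (c * g j)⌋₊ x.1 : ℝ) ≤ Real.exp (g j) ∧
        (sm ⌊Real.exp (c * g j)⌋₊ x.2 : ℝ) ≤ Real.exp (g j)))).card : ℕ) : ℝ) =
      ∑ b ∈ Icc 1 A, (((Icc 1 A).filter (fun a : ℕ => Squarefree a ∧ Squarefree b ∧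
        ∀ j < J1 * J2, ¬ ((sm ⌊Real.exp (c * g j)⌋₊ a : ℝ) ≤ Real.exp (g j) ∧
        (sm ⌊Real.exp (c * g j)⌋₊ b : ℝ) ≤ Real.exp (g j)))).card : ℝ) := by
    rw [Finset.card_filter, Finset.sum_product_right]
    push_cast
    refine Finset.sum_congr rfl fun b _ => ?_
    rw [Finset.card_filter]
    push_cast
    rfl
  have e2 : ∀ b ∈ Icc 1 A, (((Icc 1 A).filter (fun a : ℕ => Squarefree a ∧ Squarefree b ∧
        ∀ j < J1 * J2, ¬ ((sm ⌊Real.exp (c * g j)⌋₊ a : ℝ) ≤ Real.exp (g j) ∧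
        (sm ⌊Real.exp (c * g j)⌋₊ b : ℝ) ≤ Real.exp (g j)))).card : ℝ) ≤
      ∑ k ∈ range J1, (if Squarefree b ∧ ∀ i < J2, Real.exp (g (k * J2 + i)) <
        (sm ⌊Real.exp (c * g (k * J2 + i))⌋₊ b : ℝ) then (A : ℝ) else 0) + ε / 2 * A := by
    intro b hb
    have hnn : ∀ k ∈ range J1, (0 : ℝ) ≤ (if Squarefree b ∧ ∀ i < J2,
        Real.exp (g (k * J2 + i)) <
        (sm ⌊Real.exp (c * g (k * J2 + i))⌋₊ b : ℝ) then (A : ℝ) else 0) := by
      intro k _
      split_ifs
      · positivity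
      · exact le_rfl
    by_cases hs : Squarefree b
    · by_cases hgood : ∀ k < J1, ∃ i < J2, (sm ⌊Real.exp (c * g (k * J2 + i))⌋₊ b : ℝ) ≤
        Real.exp (g (k * J2 + i))
      · have h1 := hF b hgood
        have h2 := Finset.sum_nonneg hnn
        linarith
      · push Not at hgood
        obtain ⟨k, hk, hk2⟩ := hgood
        have h3 := Finset.single_le_sum hnn (mem_range.2 hk)
        rw [if_pos ⟨hs, hk2⟩] at h3
        have h4 : (((Icc 1 A).filter (fun a : ℕ => Squarefree a ∧ Squarefree b ∧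
            ∀ j < J1 * J2, ¬ ((sm ⌊Real.exp (c * g j)⌋₊ a : ℝ) ≤ Real.exp (g j) ∧
            (sm ⌊Real.exp (c * g j)⌋₊ b : ℝ) ≤ Real.exp (g j)))).card : ℝ) ≤ A := by
          have h5 := Finset.card_filter_le (Icc 1 A) (fun a : ℕ => Squarefree a ∧ Squarefree b ∧
            ∀ j < J1 * J2, ¬ ((sm ⌊Real.exp (c * g j)⌋₊ a : ℝ) ≤ Real.exp (g j) ∧
            (sm ⌊Real.exp (c * g j)⌋₊ b : ℝ) ≤ Real.exp (g j)))
          rw [Nat.card_Icc, Nat.add_sub_cancel] at h5
          exact_mod_cast h5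
        have h6 : 0 ≤ ε / 2 * A := by positivity
        linarith
    · have h7 : ((Icc 1 A).filter (fun a : ℕ => Squarefree a ∧ Squarefree b ∧
            ∀ j < J1 * J2, ¬ ((sm ⌊Real.exp (c * g j)⌋₊ a : ℝ) ≤ Real.exp (g j) ∧
            (sm ⌊Real.exp (c * g j)⌋₊ b : ℝ) ≤ Real.exp (g j)))) = ∅ := by
        apply Finset.filter_false_of_mem
        intro a _ h8
        exact hs h8.2.1
      rw [h7, Finset.card_empty]
      have h2 := Finset.sum_nonneg hnn
      have h6 : 0 ≤ ε / 2 * A := by positivity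
      push_cast
      linarith
  have e3 : ∑ b ∈ Icc 1 A, (∑ k ∈ range J1, (if Squarefree b ∧ ∀ i < J2,
        Real.exp (g (k * J2 + i)) <
        (sm ⌊Real.exp (c * g (k * J2 + i))⌋₊ b : ℝ) then (A : ℝ) else 0) + ε / 2 * A) ≤
      ε * (A : ℝ) ^ 2 := by
    rw [Finset.sum_add_distrib, Finset.sum_comm]
    have h1 : ∀ k ∈ range J1, ∑ b ∈ Icc 1 A, (if Squarefree b ∧ ∀ i < J2,
        Real.exp (g (k * J2 + i)) <
        (sm ⌊Real.exp (c * g (k * J2 + i))⌋₊ b : ℝ) then (A : ℝ) else 0) ≤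
        ε / (2 * (J1 + 1)) * A * A := by
      intro k hk
      rw [← Finset.sum_filter, Finset.sum_const, nsmul_eq_mul]
      exact mul_le_mul_of_nonneg_right (hB k (mem_range.1 hk)) (by positivity)
    have h2 := Finset.sum_le_sum h1
    rw [Finset.sum_const, nsmul_eq_mul, Finset.card_range] at h2
    rw [Finset.sum_const, nsmul_eq_mul, Nat.card_Icc, Nat.add_sub_cancel]
    have h3 : (J1 : ℝ) * (ε / (2 * (J1 + 1)) * A * A) ≤ ε / 2 * (A : ℝ) ^ 2 := by
      have h4 : (J1 : ℝ) * (ε / (2 * (J1 + 1)) * A * A) =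
          (J1 / (J1 + 1)) * (ε / 2 * (A : ℝ) ^ 2) := by
        field_simp
      rw [h4]
      refine mul_le_of_le_one_left (by positivity) ?_
      rw [div_le_one (by positivity)]
      linarith
    have h5 : (A : ℝ) * (ε / 2 * A) = ε / 2 * (A : ℝ) ^ 2 := by ring
    linarith
  have e4 := (Finset.sum_le_sum e2).trans e3
  rw [← e1] at e4
  convert e4 using 4

end Pool.Agent.W782.HB
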